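import Pool.Agent.H346R3.MixedC

set_option autoImplicit false

namespace Pool.Agent.Results.MP_ca4ce9_co.MixedDimBound

open SimpleGraph

universe u

variable {V : Type u}

/-- Distance from the vertex `w` to an element of the graph: the graph distance for a vertex, and
the minimum of the distances to the two ends for an edge. -/
noncomputable def elemDist (G : SimpleGraph V) (w : V) : V ⊕ G.edgeSet → ℕ
  | Sum.inl v => G.dist w v
  | Sum.inr e =>
      Sym2.lift ⟨fun a b => min (G.dist w a) (G.dist w b), fun _ _ => min_comm _ _⟩ e.1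

/-- `S` is a mixed resolving set: any two distinct elements of `V ∪ E` have different distances
to some member of `S`. -/
def IsMixedResolving (G : SimpleGraph V) (S : Finset V) : Prop :=
  ∀ x y : V ⊕ G.edgeSet, x ≠ y → ∃ s ∈ S, elemDist G s x ≠ elemDist G s y

/-- The mixed metric dimension: the least size of a mixed resolving set. -/
noncomputable def mixedDim (G : SimpleGraph V) : ℕ :=
  sInf {n | ∃ S : Finset V, IsMixedResolving G S ∧ S.card = n}

/-- The cyclomatic number `|E| - |V| + 1`. -/
noncomputable def cyclomatic (G : SimpleGraph V) : ℤ :=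
  (Nat.card G.edgeSet : ℤ) - (Nat.card V : ℤ) + 1

/-- A connected graph with at least three vertices and no cut-vertex. -/
structure TwoConnected (G : SimpleGraph V) : Prop where
  connected : G.Connected
  three_le : 3 ≤ Nat.card V
  no_cut : ∀ v : V, (G.induce {v}ᶜ).Connected

/-- Sanity check: as soon as some mixed resolving set exists, the minimum defining `mixedDim` is
attained. -/
theorem mixedDim_attained {G : SimpleGraph V} {S : Finset V} (hS : IsMixedResolving G S) :
    ∃ T : Finset V, IsMixedResolving G T ∧ T.card = mixedDim G := by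
  have h : mixedDim G ∈ {n | ∃ S : Finset V, IsMixedResolving G S ∧ S.card = n} :=
    Nat.sInf_mem ⟨_, S, hS, rfl⟩
  exact h

theorem exists_resolving [Finite V] (G : SimpleGraph V) (hG : TwoConnected G)
    (hcyc : ∀ n : ℕ, IsEmpty (G ≃g cycleGraph n)) :
    ∃ S : Finset V, IsMixedResolving G S ∧ (S.card : ℤ) ≤ 2 * cyclomatic G := by
  classical
  have := Fintype.ofFinite V
  have h3 : 3 ≤ Fintype.card V := by
    rw [← Nat.card_eq_fintype_card]; exact hG.three_le
  have hdeg2 : ∀ v : V, 2 ≤ G.degree v := by
    intro v
    obtain ⟨a, ha, -⟩ := Pool.Agent.H346R3.two_nb hG.connected h3 hG.no_cut v v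
    obtain ⟨b, hb, hba⟩ := Pool.Agent.H346R3.two_nb hG.connected h3 hG.no_cut v a
    rw [← card_neighborFinset_eq_degree]
    have h : ({a, b} : Finset V) ⊆ G.neighborFinset v := by
      intro x hx
      simp only [Finset.mem_insert, Finset.mem_singleton] at hx
      rw [mem_neighborFinset]
      rcases hx with rfl | rfl
      · exact ha
      · exact hb
    have := Finset.card_le_card h
    rwa [Finset.card_pair hba.symm] at this
  have hbig : ∃ v : V, 3 ≤ G.degree v := by
    by_contra hcon
    push Not at hcon
    obtain ⟨n, ⟨e⟩⟩ := Pool.Agent.Helper431.exists_iso_cycleGraph hG.connected hdeg2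
      (fun v => by have := hcon v; omega)
    exact (hcyc n).false e
  obtain ⟨S, hS, h1, h2, h4⟩ := Pool.Agent.H346R3.main hG.connected h3 hG.no_cut hbig
  refine ⟨S, ?_, ?_⟩
  · rintro (x | ⟨e, he⟩) (y | ⟨f, hf⟩) hne
    · exact h1 x y (fun h => hne (by rw [h]))
    · induction f with
      | _ a b => exact h4 x a b hf
    · induction e with
      | _ a b =>
        obtain ⟨s, hs, h⟩ := h4 y a b he
        exact ⟨s, hs, h.symm⟩
    · induction e with
      | _ a b =>
        induction f with
        | _ c d =>
          refine h2 a b c d he hf ?_ ?_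
          · rintro ⟨rfl, rfl⟩; exact hne rfl
          · rintro ⟨rfl, rfl⟩
            apply hne
            have : (s(a, b) : Sym2 V) = s(b, a) := Sym2.eq_swap
            congr 1
            exact Subtype.ext this
  · have e1 : Nat.card G.edgeSet = G.edgeFinset.card := by
      rw [Nat.card_eq_fintype_card, ← SimpleGraph.edgeFinset_card]
    unfold cyclomatic
    rw [e1, Nat.card_eq_fintype_card]
    exact hS

/-- **Mixed metric dimension of 2-connected graphs.**  Every finite 2-connected graph `G` that is
not a cycle satisfies `mdim G ≤ 2 c(G)`, where `c(G) = |E| - |V| + 1` is the cyclomatic number. -/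
theorem result [Finite V] (G : SimpleGraph V) (hG : TwoConnected G)
    (hcyc : ∀ n : ℕ, IsEmpty (G ≃g cycleGraph n)) :
    (mixedDim G : ℤ) ≤ 2 * cyclomatic G := by
  obtain ⟨S, hS, hcard⟩ := exists_resolving G hG hcyc
  have h : mixedDim G ≤ S.card := Nat.sInf_le ⟨S, hS, rfl⟩
  have h' : (mixedDim G : ℤ) ≤ S.card := by exact_mod_cast h
  exact h'.trans hcard

end Pool.Agent.Results.MP_ca4ce9_co.MixedDimBound
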